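import Pool.Agent.H52.HMS.LBase

/-!
# HMS box 1: the rounds are not clipped (module LNCL)
-/

set_option autoImplicit false

namespace Pool.HMS

open TMLib Finset

theorem lncl_m_pos {D m : ℕ} {B : Mat} {X : ℚ} (h : LVal D m B X) : 1 ≤ m := by
  by_contra hm
  have hm0 : m = 0 := by omega
  subst hm0
  have h1 := h.ind (fun i => if i = 0 then 1 else 0) (by
    intro i hi
    have := h.one
    show (if i = 0 then (1 : ℚ) else 0) = 0
    rw [if_neg (by omega)]) (by
    intro k hk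
    omega) 0
  simp at h1

theorem lncl_clip {β : Type} [Enc β] (K : ℕ) (d s : β) (h : sz s ≤ K) : clip K d s = s := by
  unfold clip
  rw [if_pos h]

theorem lncl_pairs (D : ℕ) (p : ℕ × ℕ) (h : p ∈ pairs D) : p.1 < D ∧ p.2 < p.1 := by
  unfold pairs at h
  rw [List.mem_flatMap] at h
  obtain ⟨i, hi, hp⟩ := h
  rw [List.mem_map] at hp
  obtain ⟨j, hj, rfl⟩ := hp
  rw [List.mem_reverse] at hj
  exact ⟨List.mem_range.1 hi, List.mem_range.1 hj⟩

/-- Size of a state from a bound for the Gram matrix. -/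
theorem lncl_size (h2 : S_LCRA) (h5 : S_LSZB) (D m : ℕ) (B : Mat) (X M : ℚ) (s : Mat × Mat)
    (n : ℕ) (hv : LVal D m B X) (hu : Unimod D s.1 s.2) (hM : m * X ^ 2 ≤ M)
    (hg : ∀ i < D, gr D m B s.1 i i ≤ M) (hn : (D.factorial : ℚ) * M ^ D ≤ 2 ^ n)
    (hk : 40 * (D + 1) ^ 2 * (n + 1) ≤ kP D m B) : sz s ≤ kP D m B := by
  have h := h2 D m B X M s.1 s.2 hv hu hM hg
  exact (h5 D n s.1 s.2 hu fun i j => ⟨(h i j).1.trans hn, (h i j).2.trans hn⟩).trans hk

theorem lncl_srA (h6 : S_LSEA) (D m : ℕ) (B : Mat) (X : ℚ) (s : Mat × Mat) (p : ℕ × ℕ)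
    (hv : LVal D m B X) (hu : Unimod D s.1 s.2) (hp : p ∈ pairs D) :
    srA D m B s p = srS D m B s p := by
  obtain ⟨hp1, hp2⟩ := lncl_pairs D p hp
  have ha := h6 D m B X s.1 s.2 hv hu p.2 (by omega) p.1 hp1 p.2 (by omega)
  have hb := h6 D m B X s.1 s.2 hv hu p.2 (by omega) p.2 (by omega) p.2 (by omega)
  unfold srA srS mu
  rw [ha, hb]

theorem lncl_thm (_ : S_LUNI) (h2 : S_LCRA) (h3 : S_LPAS) (h4 : S_LMAC) (h5 : S_LSZB)
    (h6 : S_LSEA) (h7 : S_LNUM) : S_LNCL := by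
  intro D m B s hv hi
  have hm := lncl_m_pos hv
  obtain ⟨n, ⟨hn1, hn2⟩, hn3⟩ := h7 D m B hv.one hm
  obtain ⟨hpre, hinv, -, -⟩ := h3 D m B (2 ^ sz B) s hv hi
  have hX : (1 : ℚ) ≤ m * (2 ^ sz B) ^ 2 := by
    have ha : (1 : ℚ) ≤ m := by exact_mod_cast hm
    have hb : (1 : ℚ) ≤ (2 ^ sz B) ^ 2 := by
      apply one_le_pow₀
      apply one_le_pow₀
      norm_num
    nlinarith
  have hD : (1 : ℚ) ≤ D := by exact_mod_cast hv.one
  have hmid : (m : ℚ) * (2 ^ sz B) ^ 2 ≤ mid D m (2 ^ sz B) := by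
    unfold mid
    have ha : (m : ℚ) * (2 ^ sz B) ^ 2 ≤ ((m : ℚ) * (2 ^ sz B) ^ 2) ^ (2 * D + 1) := by
      apply le_self_pow₀ hX
      omega
    have hb : (1 : ℚ) ≤ 4 ^ D * (D : ℚ) ^ 3 := by
      have hb1 : (1 : ℚ) ≤ 4 ^ D := one_le_pow₀ (by norm_num)
      have hb2 : (1 : ℚ) ≤ (D : ℚ) ^ 3 := one_le_pow₀ hD
      nlinarith
    have hc : (0 : ℚ) ≤ ((m : ℚ) * (2 ^ sz B) ^ 2) ^ (2 * D + 1) := le_trans (by linarith) ha
    nlinarith
  have hpass : ∀ l', l' <+: pairs D →
      l'.foldl (fun s p => clip (kP D m B) ([], []) (srA D m B s p)) s =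
        l'.foldl (srS D m B) s := by
    intro l'
    induction l' using List.reverseRecOn with
    | nil => intro _; rfl
    | append_singleton l' p ih =>
      intro hl
      have hl' : l' <+: pairs D := (List.prefix_append l' [p]).trans hl
      have hp : p ∈ pairs D := hl.subset (by simp)
      rw [List.foldl_append, List.foldl_append, ih hl']
      simp only [List.foldl_cons, List.foldl_nil]
      rw [lncl_srA h6 D m B _ _ p hv (hpre l' hl').1 hp]
      apply lncl_clip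
      obtain ⟨hu, -, hg⟩ := hpre (l' ++ [p]) hl
      rw [List.foldl_append] at hu hg
      simp only [List.foldl_cons, List.foldl_nil] at hu hg
      exact lncl_size h2 h5 D m B _ _ _ n hv hu hmid hg hn1 hn3
  have hpassA : passA D m B s = passS D m B s := hpass (pairs D) List.prefix_rfl
  refine ⟨hpassA, ?_⟩
  unfold macA
  rw [hpassA]
  have hbad : badA D m B (passS D m B s) = badS D m B (passS D m B s) := by
    unfold badA badS
    apply List.filter_congr
    intro k hk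
    rw [List.mem_range] at hk
    rw [h6 D m B _ _ _ hv hinv.uni k (by omega) (k + 1) (by omega) (k + 1) (by omega),
      h6 D m B _ _ _ hv hinv.uni k (by omega) k (by omega) k (by omega)]
  have hsw : swA D m B (passS D m B s) = swS D m B (passS D m B s) := by
    unfold swA swS
    rw [hbad]
  rw [hsw]
  have hmac := (h4 D m B _ s hv hi).1
  show clip (kP D m B) ([], []) (macS D m B s) = macS D m B s
  apply lncl_clip
  refine lncl_size h2 h5 D m B _ _ _ n hv hmac.uni ?_ hmac.nb hn2 hn3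
  nlinarith

end Pool.HMS
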