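import Pool.Agent.H52.HMS.LBase
import Pool.Agent.H48.HMS.Bin

/-!
# HMS box 1: sizes of states (module LSZB)
-/

set_option autoImplicit false

namespace Pool.HMS

open TMLib Finset

theorem lszb_entry (q : ℚ) (n : ℕ) (hq : IsI q) (h : |q| ≤ 2 ^ n) : sz q ≤ 8 * n + 15 := by
  obtain ⟨z, rfl⟩ := hq
  have h1 := sz_rat_le (z : ℚ)
  have h2 : z.natAbs ≤ 2 ^ n := by
    have h3 : ((z.natAbs : ℕ) : ℚ) ≤ ((2 ^ n : ℕ) : ℚ) := by
      push_cast
      rw [Nat.cast_natAbs]
      push_cast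
      exact h
    exact_mod_cast h3
  have h4 : Nat.size z.natAbs ≤ n + 1 := by
    rw [Nat.size_le]
    calc z.natAbs ≤ 2 ^ n := h2
      _ < 2 ^ (n + 1) := Nat.pow_lt_pow_right (by norm_num) (by omega)
  have h5 : qb (z : ℚ) ≤ n + 1 := by
    unfold qb
    apply max_le
    · rw [Rat.num_intCast]
      exact h4
    · rw [Rat.den_intCast]
      simp
  omega

theorem lszb_mat (D n : ℕ) (U : Mat) (hl : U.length = D) (hr : ∀ r ∈ U, r.length = D)
    (hi : ∀ i j, IsI (ent U i j)) (hb : ∀ i j, |ent U i j| ≤ 2 ^ n) :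
    sz U ≤ 1 + D * (1 + (1 + D * (1 + (8 * n + 15)))) := by
  refine sz_list_le U D _ hl.le ?_
  intro r hr'
  refine sz_list_le r D _ (hr r hr').le ?_
  intro q hq
  obtain ⟨i, hi', rfl⟩ := List.getElem_of_mem hr'
  obtain ⟨j, hj', rfl⟩ := List.getElem_of_mem hq
  have he : ent U i j = U[i][j] := by
    unfold ent fn
    rw [List.getD_eq_getElem _ _ hi', List.getD_eq_getElem _ _ hj']
  rw [← he]
  exact lszb_entry _ n (hi i j) (hb i j)

theorem lszb_thm : S_LSZB := by
  intro D n U W h hb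
  have h1 := lszb_mat D n U h.lenU h.rowU h.intU fun i j => (hb i j).1
  have h2 := lszb_mat D n W h.lenW h.rowW h.intW fun i j => (hb i j).2
  have h3 : sz (U, W) = 1 + sz U + sz W := rfl
  rw [h3]
  nlinarith [Nat.zero_le (D * D * n), Nat.zero_le (D * n), Nat.zero_le (D * D), Nat.zero_le D,
    Nat.zero_le n]

end Pool.HMS
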