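import Pool.Agent.H76.HMS.SvStmts

/-!
# HMS, box 6: one step of the recursion (module VND)
-/

set_option autoImplicit false

namespace Pool.HMS

open TMLib Finset

theorem vnd_dimB_mono (d w : ℕ) : Monotone (dimB d w) := by
  apply monotone_nat_of_le_succ
  intro j
  show dimB d w j ≤ dimB d w j + (d + 1) * qNum d (dimB d w j) + w * (d + 1)
  omega

theorem vnd_offs_succ (d : ℕ) (S : SState) (l : ℕ) (hl : l < S.2.length) :
    offs d S (l + 1) = offs d S l + ((nodeAt S l).1 + 1) := by
  unfold offs nodeAt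
  rw [List.take_add_one, List.getElem?_eq_getElem hl, List.getD_eq_getElem _ _ hl]
  simp only [List.map_append, List.sum_append, Option.toList, List.map_cons, List.map_nil,
    List.sum_cons, List.sum_nil]
  omega

theorem vnd_offs_mono (d : ℕ) (S : SState) (k l : ℕ) (h : l + k ≤ S.2.length) :
    offs d S l ≤ offs d S (l + k) := by
  induction k with
  | zero => exact le_refl _
  | succ k ih =>
    have := ih (by omega)
    have h2 := vnd_offs_succ d S (l + k) (by omega)
    rw [← Nat.add_assoc, h2]
    omega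

theorem vnd_offs_le (d : ℕ) (S : SState) (l : ℕ) (hl : l < S.2.length) :
    offs d S l + ((nodeAt S l).1 + 1) ≤ dimS d S := by
  rw [← vnd_offs_succ d S l hl]
  unfold dimS
  have := vnd_offs_mono d S (S.2.length - (l + 1)) (l + 1) (by omega)
  rwa [show l + 1 + (S.2.length - (l + 1)) = S.2.length by omega] at this

/-- The slice of a vector is the block of the piece. -/
theorem vnd_slice (d : ℕ) (S : SState) (l : ℕ) (hl : l < S.2.length) (v : Vec)
    (hv : v.length = dimS d S) :
    fn ((v.drop (offs d S l)).take ((nodeAt S l).1 + 1)) = pcl d S (fn v) l ∧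
      ((v.drop (offs d S l)).take ((nodeAt S l).1 + 1)).length = (nodeAt S l).1 + 1 := by
  constructor
  · funext i
    unfold pcl blk fn
    by_cases hi : i < (nodeAt S l).1 + 1
    · rw [if_pos hi]
      simp [List.getD, List.getElem?_drop, hi]
    · rw [if_neg hi]
      simp [List.getD, hi]
  · have := vnd_offs_le d S l hl
    simp
    omega

theorem vnd_bad_some (rnd : PCtx × ℕ × ℚ → RRes) (c : SCtx) (S : SState) (z : Vec) (l : ℕ)
    (h : badIdx rnd c S z = some l) :
    l < S.2.length ∧ 1 ≤ (nodeAt S l).1 ∧ (rndAt rnd c S z l).1.1 = false := by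
  unfold badIdx at h
  have h2 := List.mem_of_head? h
  rw [List.mem_filter] at h2
  simpa using h2

theorem vnd_bad_none (rnd : PCtx × ℕ × ℚ → RRes) (c : SCtx) (S : SState) (z : Vec)
    (h : badIdx rnd c S z = none) (l : ℕ) (hl : l < S.2.length) (h1 : 1 ≤ (nodeAt S l).1) :
    (rndAt rnd c S z l).1.1 = true := by
  unfold badIdx at h
  rw [List.head?_eq_none_iff, List.filter_eq_nil_iff] at h
  have := h l (List.mem_range.mpr hl)
  simp only [h1, decide_true, Bool.true_and, Bool.not_eq_true', Bool.not_eq_false] at this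
  exact this

theorem vnd_thm (h1 : S_VDP) (h2 : S_VD0) (h3 : S_VKC) (h4 : S_VKO) (h5 : S_VPO) (h6 : S_VSP)
    (h7 : S_VRK) (h8 : S_VSZ) (h9 : S_VLS) (h10 : S_VIC) (h11 : S_VPR) : S_VND := by
  intro be bh wd cr hull ex rnd C w m d b rows B y S hex hrd hhl hbud hB hB2 hbox hbd hyl hyi hS
  have hmem : ∀ l < S.2.length, nodeAt S l ∈ S.2 := by
    intro l hl
    unfold nodeAt
    rw [List.getD_eq_getElem _ _ hl]
    exact List.getElem_mem hl
  have hC1 : 1 ≤ C := by
    have := hbud.hcr 0 (Nat.zero_le _)
    omega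
  -- dimension
  have hdim : dimS d S ≤ dimB d w (sRk w d) :=
    hS.dim.trans (vnd_dimB_mono d w (Nat.sub_le _ _))
  have hbe : be (dimS d S) ≤ m := hbud.hbe _ hdim
  -- boxes of the pieces
  have hpbox : ∀ p ∈ S.2, ∀ x ∈ Poly p.1 (rowsOf d rows p), Box p.1 p.2.2 x := by
    intro p hp x hx
    rw [h11.1 d rows p] at hx
    exact (hS.pieces p hp).2 x hx
  have hgh : ∀ p ∈ S.2, GoodHull hull p.1 (rowsOf d rows p) p.2.2 b := by
    intro p hp
    have hok := (hS.pieces p hp).1
    exact hhl p.1 (rowsOf d rows p) p.2.2 b (hbud.hbh _ hok.le) hok.intB hok.two (hpbox p hp)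
  -- the net
  obtain ⟨hKbox, hKI, hK2⟩ := h3.2 C d B rows y S hB hB2 hbox hbd hyl hyi hS.pieces
  have hnet : NetOut be (dimS d S) (KS d rows y S)
      (ex (((d, rows, B, y, b), S), dimS d S, KB d B y S, b)) :=
    hex _ _ _ _ _ (hbe.trans hbud.hm) hKI hK2 (h3.1 d rows y S) hKbox
      (h4 hull d b rows B y S hyl hgh)
  -- rounding
  have hround : ∀ v : Vec, v.length = dimS d S → ∀ l < S.2.length, 1 ≤ (nodeAt S l).1 →
      RoundOut wd cr (nodeAt S l).1 (nodeAt S l).2.2
        (PP (nodeAt S l).1 (rowsOf d rows (nodeAt S l)) (pcl d S (fn v) l))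
        (rndAt rnd (d, rows, B, y, b) S v l).1.1 (rndAt rnd (d, rows, B, y, b) S v l).1.2
        (rndAt rnd (d, rows, B, y, b) S v l).2.1.1 (rndAt rnd (d, rows, B, y, b) S v l).2.1.2
        (rndAt rnd (d, rows, B, y, b) S v l).2.2.1 (rndAt rnd (d, rows, B, y, b) S v l).2.2.2 := by
    intro v hv l hl h1l
    obtain ⟨hs1, hs2⟩ := vnd_slice d S l hl v hv
    have hok := (hS.pieces _ (hmem l hl)).1
    have horc := h5.2 hull d b rows (nodeAt S l) ((v.drop (offs d S l)).take ((nodeAt S l).1 + 1))
      hs2 (hgh _ (hmem l hl))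
    rw [hs1] at horc
    exact hrd _ _ _ _ h1l hok.intB hok.two (h5.1 _ _ _)
      (fun x hx => hpbox _ (hmem l hl) x hx.1) horc
  have hkids : ∀ v : Vec, v.length = dimS d S → ∀ l, badIdx rnd (d, rows, B, y, b) S v = some l →
      StOK C w d B rows (splitS d b S l (rndAt rnd (d, rows, B, y, b) S v l)) ∧
        rkS w (splitS d b S l (rndAt rnd (d, rows, B, y, b) S v l)) < rkS w S := by
    intro v hv l hb
    obtain ⟨hl, h1l, hf⟩ := vnd_bad_some rnd _ S v l hb
    have hr := hround v hv l hl h1l
    rw [hf] at hr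
    exact h7 wd cr C w d b B rows S l _ _ hB hB2 hS hl h1l hbud.hcr hbud.hwd hbud.hw hf hr
  refine ⟨?_, ?_, ?_, ?_, ?_⟩
  · -- number of children
    unfold svNode
    refine (List.length_filter_le _ _).trans ((List.length_filterMap_le _ _).trans ?_)
    exact hnet.card.trans hbe
  · unfold svNode
    simp only
    split_ifs <;> simp
  · intro S' hS'
    unfold svNode at hS'
    rw [List.mem_filter, List.mem_filterMap] at hS'
    obtain ⟨⟨v, hv, hv2⟩, -⟩ := hS'
    rw [Option.map_eq_some_iff] at hv2
    obtain ⟨l, hl, rfl⟩ := hv2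
    exact hkids v (hnet.mem v hv).1 l hl
  · -- soundness
    intro hne
    unfold svNode at hne
    simp only at hne
    split_ifs at hne with hany
    · rw [List.any_eq_true] at hany
      obtain ⟨v, hv, hnone⟩ := hany
      rw [Option.isNone_iff_eq_none] at hnone
      obtain ⟨hvl, hvlat, hvK⟩ := hnet.mem v hv
      obtain ⟨hk1, hk2, hk3, hk4⟩ := hvK
      have hpl : ∀ l, Lat ((nodeAt S l).1 + 1) (pcl d S (fn v) l) := by
        intro l
        constructor
        · intro i hi
          unfold pcl blk
          rw [if_neg (by omega)]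
        · intro i
          unfold pcl blk
          split_ifs
          · exact hvlat.2 _
          · exact ⟨0, by simp⟩
      have hsol : fn v ∈ SolS d rows y S := by
        refine ⟨hvlat, hk2, ?_, hk4⟩
        intro l hl
        rcases Nat.eq_zero_or_pos (nodeAt S l).1 with h0 | h0
        · have hlat := hpl l
          have hc := hk3 l hl
          unfold HP at hc ⊢
          rw [h0] at hlat hc ⊢
          exact h2 _ _ hlat hc
        · have ht := vnd_bad_none rnd _ S v hnone l hl h0
          have hr := hround v hvl l hl h0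
          obtain ⟨hz1, hz2, hz3⟩ := hr.thick_spec ht
          exact h1 _ _ _ _ h0 (hpl l) (hk3 l hl) hz2 hz3
      have hL : SolL d rows y S := (h9 d rows y S hbd).1.2 ⟨_, hsol⟩
      exact h10 d rows y S (fun p hp => (hS.pieces p hp).1.int) hL
    · exact absurd rfl hne
  · -- completeness
    intro hL
    obtain ⟨hL1, hsub⟩ := h9 d rows y S hbd
    obtain ⟨z, hz⟩ := hL1.1 hL
    obtain ⟨v, hv, hrefl⟩ := hnet.net z (hsub hz) hz.1
    obtain ⟨hvl, hvlat, hvK⟩ := hnet.mem v hv
    rcases hb : badIdx rnd (d, rows, B, y, b) S v with _ | l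
    · left
      unfold svNode
      simp only
      rw [if_pos]
      · simp
      · rw [List.any_eq_true]
        exact ⟨v, hv, by rw [hb]; rfl⟩
    · right
      obtain ⟨hl, h1l, hf⟩ := vnd_bad_some rnd _ S v l hb
      have hr := hround v hvl l hl h1l
      rw [hf] at hr
      refine ⟨splitS d b S l (rndAt rnd (d, rows, B, y, b) S v l), ?_, ?_⟩
      · unfold svNode
        rw [List.mem_filter, List.mem_filterMap]
        refine ⟨⟨v, hv, by rw [hb]; rfl⟩, ?_⟩
        rw [decide_eq_true_eq]
        have hst := (hkids v hvl l hb).1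
        refine (h8 C w d B rows _ hC1 hB hB2 hst).trans ?_
        exact Nat.mul_le_mul_right _ hbud.hsz
      · have hwb : wd (nodeAt S l).1 < b := by
          have := hbud.hwd _ (hS.pieces _ (hmem l hl)).1.le
          have := hbud.hw
          omega
        exact h6 wd cr C d b B rows y S l (fn v) z _ hB hB2 hbd hS.pieces hl h1l hvK hz hrefl hf
          hwb hr

end Pool.HMS
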