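import Pool.Agent.H76.HMS.SvStmts

/-!
# HMS, box 6: completeness of the split (module VSP)
-/

set_option autoImplicit false

namespace Pool.HMS

open TMLib Finset

theorem vsp_fn_tab (n : ℕ) (f : ℕ → ℚ) (hf : ∀ i, n ≤ i → f i = 0) : fn (tab n f) = f := by
  funext i
  unfold fn tab
  by_cases h : i < n
  · rw [List.getD_eq_getElem _ _ (by simpa using h)]
    simp
  · rw [List.getD_eq_default _ _ (by simpa using h)]
    exact (hf i (by omega)).symm

theorem vsp_singles (h3 : S_VLS) (d : ℕ) (rows : Mat) (n : ℕ) (z : ℕ → ℚ) (hz : ∀ i, IsI (z i))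
    (hbd : ∀ x, Supp d x → (∀ r ∈ rows, 0 ≤ lin d (fun i => fn r (i + 1)) x) → ∀ i, x i = 0)
    (hs : ∀ j < n, SingR d rows (sgl d z j)) :
    (∑ j ∈ range n, sgl d z j) ∈ SingS n (HA d rows) := by
  have hfy : fn (tab (d + 1) (∑ j ∈ range n, sgl d z j)) = ∑ j ∈ range n, sgl d z j := by
    apply vsp_fn_tab
    intro i hi
    rw [Finset.sum_apply]
    apply Finset.sum_eq_zero
    intro j _
    unfold sgl blk
    rw [if_neg (by omega)]
  have hblk : ∀ j < n, sgl d (blk z 0 (n * (d + 1))) j = sgl d z j := by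
    intro j hj
    funext i
    unfold sgl blk
    by_cases hi : i < d + 1
    · rw [if_pos hi, if_pos hi, if_pos, Nat.zero_add]
      have h1 : (j + 1) * (d + 1) ≤ n * (d + 1) := Nat.mul_le_mul_right _ hj
      rw [Nat.add_mul, Nat.one_mul] at h1
      omega
    · rw [if_neg hi, if_neg hi]
  have hdim : dimS d ((n, []) : SState) = n * (d + 1) := by
    simp [dimS, offs]
  obtain ⟨h, -⟩ := h3 d rows (tab (d + 1) (∑ j ∈ range n, sgl d z j)) (n, []) hbd
  have hL : SolL d rows (tab (d + 1) (∑ j ∈ range n, sgl d z j)) (n, []) := by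
    rw [h]
    refine ⟨blk z 0 (n * (d + 1)), ⟨?_, ?_⟩, ?_, ?_, ?_⟩
    · rw [hdim]
      intro i hi
      unfold blk
      rw [if_neg (by omega)]
    · intro i
      unfold blk
      split_ifs
      · exact hz _
      · exact ⟨0, by simp⟩
    · intro j hj
      rw [hblk j hj]
      exact hs j hj
    · intro l hl
      simp at hl
    · rw [hfy]
      unfold totS
      simp only [List.length_nil, Finset.range_zero, Finset.sum_empty, add_zero]
      apply Finset.sum_congr rfl
      intro j hj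
      exact hblk j (Finset.mem_range.mp hj)
  obtain ⟨v, hv, t, ht, e⟩ := hL
  have ht0 : t = 0 := ht
  rw [hfy, ht0, add_zero] at e
  rw [e]
  exact hv

theorem vsp_sum_split (f : ℕ → ℕ → ℚ) (n l : ℕ) (hl : l < n) :
    ∑ i ∈ range n, f i = ∑ i ∈ range l, f i + (f l + ∑ i ∈ range (n - (l + 1)), f (l + 1 + i)) := by
  obtain ⟨k, rfl⟩ : ∃ k, n = l + 1 + k := ⟨n - (l + 1), by omega⟩
  rw [Finset.sum_range_add, Finset.sum_range_succ, add_assoc, Nat.add_sub_cancel_left]

theorem vsp_thm (h1 : S_VS1) (h2 : S_VNB) (h3 : S_VLS) (h4 : S_VRL) : S_VSP := by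
  intro wd cr C d b B rows y S l zs z r hB hB2 hbd hp hl he hzs hz hrefl hr hwd hro
  obtain ⟨-, hsub⟩ := h3 d rows y S hbd
  have hzK : z ∈ KS d rows y S := hsub hz
  have hnb := h2 d rows y S zs z hzs hzK hrefl l hl
  have hmem : nodeAt S l ∈ S.2 := by
    unfold nodeAt
    rw [List.getD_eq_getElem _ _ hl]
    exact List.getElem_mem hl
  obtain ⟨hok, hsem⟩ := hp _ hmem
  obtain ⟨⟨-, hint⟩, hsing, hpc, htot⟩ := hz
  obtain ⟨-, -, hs3, -⟩ := hzs
  obtain ⟨v, hv, t, ht, hvt⟩ := h1 wd cr C d b B B rows (nodeAt S l) (pcl d S zs l) (pcl d S z l)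
    (1 + 2 * (8 * dimS d S ^ 3 + 1) * (dimS d S + 1)) r hB hB2 hok he hsem (hs3 l hl) (hpc l hl)
    hnb hr hwd hro
  obtain ⟨hrapp, hsadd, hsmono, hrsum⟩ := h4
  have hsg := vsp_singles h3 d rows S.1 z hint hbd hsing
  -- the pieces before `l`
  have htake : (∑ i ∈ range l, embH d (nodeAt S i).1 (nodeAt S i).2.1 (pcl d S z i)) ∈
      RepP d rows (S.2.take l) := by
    have hg : ∀ i < l, (S.2.take l).getD i (0, [], 0) = nodeAt S i := by
      intro i hi
      unfold nodeAt
      simp [List.getD, hi]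
    have hlen : (S.2.take l).length = l := by
      simp; omega
    have hx := hrsum d rows (S.2.take l) (fun i => pcl d S z i) (by
      intro i hi
      rw [hlen] at hi
      rw [hg i hi]
      exact hpc i (by omega))
    rw [hlen] at hx
    convert hx using 1
    apply Finset.sum_congr rfl
    intro i hi
    rw [hg i (Finset.mem_range.mp hi)]
  have hdrop : (∑ i ∈ range (S.2.length - (l + 1)),
      embH d (nodeAt S (l + 1 + i)).1 (nodeAt S (l + 1 + i)).2.1 (pcl d S z (l + 1 + i))) ∈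
      RepP d rows (S.2.drop (l + 1)) := by
    have hg : ∀ i, (S.2.drop (l + 1)).getD i (0, [], 0) = nodeAt S (l + 1 + i) := by
      intro i
      unfold nodeAt
      simp [List.getD, List.getElem?_drop]
    have hlen : (S.2.drop (l + 1)).length = S.2.length - (l + 1) := by
      simp
    have hx := hrsum d rows (S.2.drop (l + 1)) (fun i => pcl d S z (l + 1 + i)) (by
      intro i hi
      rw [hlen] at hi
      rw [hg i]
      exact hpc _ (by omega))
    rw [hlen] at hx
    convert hx using 1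
    apply Finset.sum_congr rfl
    intro i hi
    rw [hg i]
  have hq : S.1 + ((nodeAt S l).1 + 1) ^ 2 *
      (1 + 2 * (8 * dimS d S ^ 3 + 1) * (dimS d S + 1)) ≤ (splitS d b S l r).1 := by
    show _ ≤ S.1 + qNum d (dimS d S)
    unfold qNum
    apply Nat.add_le_add_left
    apply Nat.mul_le_mul_right
    exact Nat.pow_le_pow_left (Nat.add_le_add_right hok.le 1) 2
  refine ⟨(∑ j ∈ range S.1, sgl d z j) + v, hsmono _ _ _ hq (hsadd _ _ _ _ _ hsg hv),
    (∑ i ∈ range l, embH d (nodeAt S i).1 (nodeAt S i).2.1 (pcl d S z i)) +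
      (t + ∑ i ∈ range (S.2.length - (l + 1)),
        embH d (nodeAt S (l + 1 + i)).1 (nodeAt S (l + 1 + i)).2.1 (pcl d S z (l + 1 + i))), ?_, ?_⟩
  · exact (hrapp d rows _ _ _).2 ⟨_, htake, _, (hrapp d rows _ _ _).2 ⟨_, ht, _, hdrop, rfl⟩, rfl⟩
  · rw [← htot]
    unfold totS
    rw [vsp_sum_split (fun i => embH d (nodeAt S i).1 (nodeAt S i).2.1 (pcl d S z i))
      S.2.length l hl]
    rw [hvt]
    abel

end Pool.HMS
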